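import Pool.Agent.H9.CR2

set_option autoImplicit false

namespace Pool.Agent.Results.MP_37c966_co.Full

open Pool.Agent.H9.CR

theorem result : ∀ (a b : ℕ) (F : SimpleGraph (Fin a)) (G : SimpleGraph (Fin b)), 2 ≤ a → 2 ≤ b →
    ∃ (m : ℕ) (H : SimpleGraph (Fin m)), 2 ≤ m ∧ Related F H ∧ Related H G :=
  dist_two

end Pool.Agent.Results.MP_37c966_co.Full
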